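import Pool.Agent.H241.OS.Prod

/-!
# Near relations of several numbers, each relation with a height of its own

`ξ_j`, `j ∈ J`, are real numbers with a measure which allows a denominator for each of them. The product inequality: for
one of the `j` the sum of the distances of the `q_{j,k} ξ_j + ∑ e_{j,k,i} t_{j,i}` to the integers, each divided by the
height `h_{j,k}` of its vector, is at least `c` times the product of all the heights to the power `-E`.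
-/

set_option autoImplicit false

namespace Pool.Agent.H241.OS

open Finset

/-- a determinant with bounds for the rows -/
theorem det_bound (n : ℕ) (M : Matrix (Fin n) (Fin n) ℤ) (h : Fin n → ℝ)
    (hM : ∀ i j, |(M i j : ℝ)| ≤ h i) : |(M.det : ℝ)| ≤ (n.factorial : ℝ) * ∏ i, h i := by
  rw [Matrix.det_apply']
  push_cast
  refine (Finset.abs_sum_le_sum_abs _ _).trans ?_
  have h1 : ∀ σ ∈ (Finset.univ : Finset (Equiv.Perm (Fin n))),
      |(((Equiv.Perm.sign σ : ℤˣ) : ℤ) : ℝ) * ∏ i, (M (σ i) i : ℝ)| ≤ ∏ i, h i := by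
    intro σ _
    rw [abs_mul]
    have e1 : |(((Equiv.Perm.sign σ : ℤˣ) : ℤ) : ℝ)| = 1 := by
      rcases Int.units_eq_one_or (Equiv.Perm.sign σ) with h | h <;> rw [h] <;> simp
    rw [e1, one_mul, Finset.abs_prod, ← Equiv.prod_comp σ h]
    exact Finset.prod_le_prod (fun i _ => abs_nonneg _) fun i _ => hM (σ i) i
  refine (Finset.sum_le_sum h1).trans (le_of_eq ?_)
  rw [Finset.sum_const, Finset.card_univ, Fintype.card_perm, Fintype.card_fin, nsmul_eq_mul]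

/-- elimination for one number, by Cramer's rule -/
theorem elimH (r : ℕ) (ξ : ℝ) (t : Fin r → ℝ) (q : Fin (r + 1) → ℤ)
    (e : Fin (r + 1) → Fin r → ℤ) (hv : LinearIndependent ℤ (fun k => (q k, e k)))
    (h : Fin (r + 1) → ℝ) (hh : ∀ k, 1 ≤ h k)
    (hq : ∀ k, |(q k : ℝ)| ≤ h k) (he : ∀ k i, |(e k i : ℝ)| ≤ h k) (p : Fin (r + 1) → ℤ) :
    ∃ N P : ℤ, N ≠ 0 ∧ |(N : ℝ)| ≤ ((r + 1).factorial : ℝ) * ∏ k, h k ∧
      |(N : ℝ) * ξ - P| ≤ ((r + 1).factorial : ℝ) * (∏ k, h k) *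
        ∑ k, |(q k : ℝ) * ξ + ∑ i, (e k i : ℝ) * t i - p k| / h k := by
  obtain ⟨M, hM⟩ : ∃ M : Matrix (Fin (r + 1)) (Fin (r + 1)) ℤ,
      M = fun k => Fin.cons (q k) (e k) := ⟨_, rfl⟩
  have hM0 : ∀ k, M k 0 = q k := by
    intro k
    rw [hM]
    rfl
  have hMs : ∀ k (i : Fin r), M k i.succ = e k i := by
    intro k i
    rw [hM]
    rfl
  have hh0 : ∀ k, 0 < h k := fun k => by linarith [hh k]
  have hMb : ∀ k j, |(M k j : ℝ)| ≤ h k := by
    intro k j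
    refine Fin.cases ?_ (fun i => ?_) j
    · rw [hM0]; exact hq k
    · rw [hMs]; exact he k i
  have hdet : M.det ≠ 0 := by
    intro hdet
    obtain ⟨v, hv0, hv1⟩ := Matrix.exists_vecMul_eq_zero_iff.2 hdet
    apply hv0
    rw [Fintype.linearIndependent_iff] at hv
    funext k
    refine hv v ?_ k
    have h1 : ∀ j, ∑ k, v k * M k j = 0 := fun j => congrFun hv1 j
    refine Prod.ext ?_ ?_
    · rw [Prod.fst_sum]
      simp only [Prod.smul_fst, smul_eq_mul, Prod.fst_zero]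
      rw [← h1 0]
      exact Finset.sum_congr rfl fun k _ => by rw [hM0]
    · rw [Prod.snd_sum]
      funext i
      rw [Finset.sum_apply]
      simp only [Prod.smul_snd, Pi.smul_apply, smul_eq_mul, Prod.snd_zero, Pi.zero_apply]
      rw [← h1 i.succ]
      exact Finset.sum_congr rfl fun k _ => by rw [hMs]
  obtain ⟨l, hl⟩ : ∃ l : Fin (r + 1) → ℤ, l = fun k => M.adjugate 0 k := ⟨_, rfl⟩
  have hadj : ∀ j, ∑ k, l k * M k j = if (0 : Fin (r + 1)) = j then M.det else 0 := by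
    intro j
    have h1 := congrFun (congrFun (Matrix.adjugate_mul M) 0) j
    rw [Matrix.mul_apply, Matrix.smul_apply, Matrix.one_apply, smul_eq_mul, mul_ite, mul_one,
      mul_zero] at h1
    rw [hl]
    exact h1
  have hlb : ∀ k, |(l k : ℝ)| ≤ ((r + 1).factorial : ℝ) * ((∏ k, h k) / h k) := by
    intro k
    rw [hl]
    simp only
    rw [Matrix.adjugate_apply]
    have h1 := det_bound (r + 1) (M.updateRow k (Pi.single 0 1)) (Function.update h k 1) (by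
      intro i j
      by_cases hi : i = k
      · subst hi
        rw [Matrix.updateRow_self, Function.update_self]
        by_cases hj : j = 0
        · subst hj
          simp
        · rw [Pi.single_eq_of_ne hj]
          simp
      · rw [Matrix.updateRow_ne hi, Function.update_of_ne hi]
        exact hMb i j)
    refine h1.trans (le_of_eq ?_)
    congr 1
    rw [eq_div_iff (hh0 k).ne', ← Finset.mul_prod_erase Finset.univ h (Finset.mem_univ k),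
      ← Finset.mul_prod_erase Finset.univ (Function.update h k 1) (Finset.mem_univ k),
      Function.update_self, one_mul, mul_comm]
    congr 1
    exact Finset.prod_congr rfl fun i hi => Function.update_of_ne (Finset.ne_of_mem_erase hi) _ _
  refine ⟨M.det, ∑ k, l k * p k, hdet, det_bound (r + 1) M h hMb, ?_⟩
  have hsum : (M.det : ℝ) * ξ - ((∑ k, l k * p k : ℤ) : ℝ) =
      ∑ k, (l k : ℝ) * ((q k : ℝ) * ξ + ∑ i, (e k i : ℝ) * t i - p k) := by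
    have h1 : ∑ k, (l k : ℝ) * ∑ i, (e k i : ℝ) * t i = 0 := by
      simp only [Finset.mul_sum]
      rw [Finset.sum_comm]
      refine Finset.sum_eq_zero fun i _ => ?_
      have h2 : ∑ k, (l k : ℝ) * ((e k i : ℝ) * t i) = (∑ k, (l k : ℝ) * (e k i : ℝ)) * t i := by
        rw [Finset.sum_mul]
        exact Finset.sum_congr rfl fun k _ => by ring
      rw [h2]
      have h3 := hadj i.succ
      rw [if_neg (Fin.succ_ne_zero i).symm] at h3
      have h4 : ∑ k, (l k : ℝ) * (e k i : ℝ) = 0 := by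
        have h5 : ∑ k, l k * e k i = 0 := by
          rw [← h3]
          exact Finset.sum_congr rfl fun k _ => by rw [hMs]
        exact_mod_cast h5
      rw [h4, zero_mul]
    have h2 : ∑ k, (l k : ℝ) * ((q k : ℝ) * ξ + ∑ i, (e k i : ℝ) * t i - p k) =
        (∑ k, (l k : ℝ) * (q k : ℝ)) * ξ + ∑ k, (l k : ℝ) * ∑ i, (e k i : ℝ) * t i -
          ∑ k, (l k : ℝ) * (p k : ℝ) := by
      rw [Finset.sum_mul, ← Finset.sum_add_distrib, ← Finset.sum_sub_distrib]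
      exact Finset.sum_congr rfl fun k _ => by ring
    have h3 : ∑ k, (l k : ℝ) * (q k : ℝ) = M.det := by
      have h4 := hadj 0
      rw [if_pos rfl] at h4
      have h5 : ∑ k, l k * q k = M.det := by
        rw [← h4]
        exact Finset.sum_congr rfl fun k _ => by rw [hM0]
      exact_mod_cast h5
    rw [h2, h1, h3]
    push_cast
    ring
  rw [hsum, Finset.mul_sum]
  refine (Finset.abs_sum_le_sum_abs _ _).trans (Finset.sum_le_sum fun k _ => ?_)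
  rw [abs_mul]
  have h1 := hlb k
  have h2 := abs_nonneg ((q k : ℝ) * ξ + ∑ i, (e k i : ℝ) * t i - p k)
  calc |(l k : ℝ)| * |(q k : ℝ) * ξ + ∑ i, (e k i : ℝ) * t i - p k|
      ≤ ((r + 1).factorial : ℝ) * ((∏ k, h k) / h k) *
        |(q k : ℝ) * ξ + ∑ i, (e k i : ℝ) * t i - p k| := by gcongr
    _ = ((r + 1).factorial : ℝ) * (∏ k, h k) *
        (|(q k : ℝ) * ξ + ∑ i, (e k i : ℝ) * t i - p k| / h k) := by ring

/-- **The product inequality, each relation with a height of its own.** -/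
theorem heights (J : Finset ℕ) (ξ : ℕ → ℝ) (E : ℕ) (hE : 1 ≤ E) (c₀ : ℝ) (hc₀ : 0 < c₀)
    (hm : ∀ a q : ℕ → ℤ, (∀ j ∈ J, q j ≠ 0) →
      ∃ j ∈ J, c₀ / (∏ i ∈ J, |(q i : ℝ)|) ^ E ≤ |ξ j - (a j : ℝ) / (q j : ℝ)|)
    (r : ℕ → ℕ) : ∃ c : ℝ, 0 < c ∧ ∀ h : (j : ℕ) → Fin (r j + 1) → ℝ, (∀ j ∈ J, ∀ k, 1 ≤ h j k) →
      ∀ (t : (j : ℕ) → Fin (r j) → ℝ) (q : (j : ℕ) → Fin (r j + 1) → ℤ)
        (e : (j : ℕ) → Fin (r j + 1) → Fin (r j) → ℤ),
        (∀ j ∈ J, LinearIndependent ℤ (fun k => (q j k, e j k))) →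
        (∀ j ∈ J, ∀ k, |(q j k : ℝ)| ≤ h j k) → (∀ j ∈ J, ∀ k i, |(e j k i : ℝ)| ≤ h j k) →
        ∃ j ∈ J, ∀ p : Fin (r j + 1) → ℤ, c / (∏ i ∈ J, ∏ k, h i k) ^ E ≤
          ∑ k, |(q j k : ℝ) * ξ j + ∑ i, (e j k i : ℝ) * t j i - p k| / h j k := by
  classical
  obtain ⟨F, hF⟩ : ∃ F : ℕ → ℝ, F = fun j => ((r j + 1).factorial : ℝ) := ⟨_, rfl⟩
  have hF0 : ∀ j, 0 < F j := by
    intro j
    rw [hF]
    change (0 : ℝ) < ((r j + 1).factorial : ℝ)
    exact_mod_cast (r j + 1).factorial_pos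
  obtain ⟨D, hD⟩ : ∃ D : ℝ, D = (∏ i ∈ J, F i) ^ E := ⟨_, rfl⟩
  have hD0 : 0 < D := by
    rw [hD]
    exact pow_pos (Finset.prod_pos fun i _ => hF0 i) _
  refine ⟨c₀ / (2 * D), by positivity, ?_⟩
  intro h hh t q e hv hqh heh
  by_contra hcon
  push Not at hcon
  obtain ⟨H, hH⟩ : ∃ H : ℕ → ℝ, H = fun j => ∏ k, h j k := ⟨_, rfl⟩
  have hHpos : ∀ j ∈ J, 0 < H j := fun j hj => by
    rw [hH]
    exact Finset.prod_pos fun k _ => by linarith [hh j hj k]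
  have hstep : ∀ j : ℕ, ∃ N P : ℤ, j ∈ J → (N ≠ 0 ∧ |(N : ℝ)| ≤ F j * H j ∧
      |(N : ℝ) * ξ j - P| ≤ F j * H j * (c₀ / (2 * D) / (∏ i ∈ J, H i) ^ E)) := by
    intro j
    by_cases hj : j ∈ J
    · obtain ⟨p, hp⟩ := hcon j hj
      obtain ⟨N, P, h2, h3, h4⟩ := elimH (r j) (ξ j) (t j) (q j) (e j) (hv j hj) (h j) (hh j hj)
        (hqh j hj) (heh j hj) p
      refine ⟨N, P, fun _ => ⟨h2, ?_, ?_⟩⟩
      · rw [hF, hH]; exact h3
      · refine h4.trans ?_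
        have hFj : (0 : ℝ) < ((r j + 1).factorial : ℝ) := by exact_mod_cast (r j + 1).factorial_pos
        have hHj : 0 < ∏ k, h j k := Finset.prod_pos fun k _ => by linarith [hh j hj k]
        rw [hF, hH]
        simp only
        gcongr
    · exact ⟨0, 0, fun h => absurd h hj⟩
  choose N P hNP using hstep
  obtain ⟨j, hj, hjm⟩ := hm P N (fun i hi => (hNP i hi).1)
  obtain ⟨h2, h3, h4⟩ := hNP j hj
  have hNr : (N j : ℝ) ≠ 0 := by exact_mod_cast h2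
  have hNa : 0 < |(N j : ℝ)| := abs_pos.2 hNr
  have h5 : |ξ j - (P j : ℝ) / N j| = |(N j : ℝ) * ξ j - P j| / |(N j : ℝ)| := by
    rw [← abs_div]
    congr 1
    field_simp
  rw [h5, le_div_iff₀ hNa] at hjm
  have h6 := hjm.trans h4
  -- the comparison
  have hUpos : ∀ i ∈ J, 0 < F i * H i := fun i hi => mul_pos (hF0 i) (hHpos i hi)
  have hQp : 0 < (∏ i ∈ J, |(N i : ℝ)|) ^ E := by
    refine pow_pos (Finset.prod_pos fun i hi => abs_pos.2 ?_) _
    exact_mod_cast (hNP i hi).1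
  have hQE : (∏ i ∈ J, |(N i : ℝ)|) ^ E * (F j * H j) ≤
      |(N j : ℝ)| * (∏ i ∈ J, (F i * H i)) ^ E := by
    rw [← Finset.mul_prod_erase J (fun i => |(N i : ℝ)|) hj,
      ← Finset.mul_prod_erase J (fun i => F i * H i) hj, mul_pow, mul_pow]
    have h7 : (∏ i ∈ J.erase j, |(N i : ℝ)|) ^ E ≤ (∏ i ∈ J.erase j, (F i * H i)) ^ E := by
      refine pow_le_pow_left₀ (Finset.prod_nonneg fun i _ => abs_nonneg _) ?_ E
      exact Finset.prod_le_prod (fun i _ => abs_nonneg _) fun i hi =>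
        (hNP i (Finset.mem_of_mem_erase hi)).2.1
    obtain ⟨E', rfl⟩ : ∃ E', E = E' + 1 := ⟨E - 1, by omega⟩
    have h8 : |(N j : ℝ)| ^ E' ≤ (F j * H j) ^ E' := pow_le_pow_left₀ (abs_nonneg _) h3 E'
    have hUj := hUpos j hj
    have h9 : 0 ≤ (∏ i ∈ J.erase j, (F i * H i)) ^ (E' + 1) :=
      pow_nonneg (Finset.prod_nonneg fun i hi => (hUpos i (Finset.mem_of_mem_erase hi)).le) _
    calc |(N j : ℝ)| ^ (E' + 1) * (∏ i ∈ J.erase j, |(N i : ℝ)|) ^ (E' + 1) * (F j * H j)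
        = |(N j : ℝ)| * (|(N j : ℝ)| ^ E' * (∏ i ∈ J.erase j, |(N i : ℝ)|) ^ (E' + 1) *
          (F j * H j)) := by ring
      _ ≤ |(N j : ℝ)| * ((F j * H j) ^ E' * (∏ i ∈ J.erase j, (F i * H i)) ^ (E' + 1) *
          (F j * H j)) := by gcongr
      _ = |(N j : ℝ)| * ((F j * H j) ^ (E' + 1) * (∏ i ∈ J.erase j, (F i * H i)) ^ (E' + 1)) := by
          ring
  have hPU : (∏ i ∈ J, (F i * H i)) ^ E = D * (∏ i ∈ J, H i) ^ E := by
    rw [hD, Finset.prod_mul_distrib, mul_pow]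
  have hHP : 0 < (∏ i ∈ J, H i) ^ E := pow_pos (Finset.prod_pos fun i hi => hHpos i hi) _
  rw [hPU] at hQE
  have hUj := hUpos j hj
  have h10 : c₀ * (F j * H j) / (D * (∏ i ∈ J, H i) ^ E) ≤
      c₀ / (∏ i ∈ J, |(N i : ℝ)|) ^ E * |(N j : ℝ)| := by
    rw [div_mul_eq_mul_div, div_le_div_iff₀ (mul_pos hD0 hHP) hQp]
    calc c₀ * (F j * H j) * (∏ i ∈ J, |(N i : ℝ)|) ^ E
        = c₀ * ((∏ i ∈ J, |(N i : ℝ)|) ^ E * (F j * H j)) := by ring
      _ ≤ c₀ * (|(N j : ℝ)| * (D * (∏ i ∈ J, H i) ^ E)) := by gcongr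
      _ = c₀ * |(N j : ℝ)| * (D * (∏ i ∈ J, H i) ^ E) := by ring
  have h11 := h10.trans h6
  have h12 : F j * H j * (c₀ / (2 * D) / (∏ i ∈ J, H i) ^ E) =
      (c₀ * (F j * H j) / (D * (∏ i ∈ J, H i) ^ E)) / 2 := by
    field_simp
  rw [h12] at h11
  have h13 : 0 < c₀ * (F j * H j) / (D * (∏ i ∈ J, H i) ^ E) := by positivity
  linarith

/-- **The product inequality for integer polynomials.** -/
theorem heightsPoly (J : Finset ℕ) (ξ : ℕ → ℝ) (E : ℕ) (hE : 1 ≤ E) (c₀ : ℝ) (hc₀ : 0 < c₀)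
    (hm : ∀ a q : ℕ → ℤ, (∀ j ∈ J, q j ≠ 0) →
      ∃ j ∈ J, c₀ / (∏ i ∈ J, |(q i : ℝ)|) ^ E ≤ |ξ j - (a j : ℝ) / (q j : ℝ)|)
    (r : ℕ → ℕ) : ∃ c : ℝ, 0 < c ∧ ∀ h : (j : ℕ) → Fin (r j + 1) → ℝ, (∀ j ∈ J, ∀ k, 1 ≤ h j k) →
      ∀ P : (j : ℕ) → Fin (r j + 1) → Polynomial ℤ, (∀ j ∈ J, LinearIndependent ℤ (P j)) →
        (∀ j ∈ J, ∀ k, (P j k).natDegree ≤ r j + 1) → (∀ j ∈ J, ∀ k, (P j k).coeff 0 = 0) →
        (∀ j ∈ J, ∀ k i, |((P j k).coeff i : ℝ)| ≤ h j k) →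
        ∃ j ∈ J, ∀ p : Fin (r j + 1) → ℤ, c / (∏ i ∈ J, ∏ k, h i k) ^ E ≤
          ∑ k, |Polynomial.aeval (ξ j) (P j k) - (p k : ℝ)| / h j k := by
  obtain ⟨c, hc, h⟩ := heights J ξ E hE c₀ hc₀ hm r
  refine ⟨c, hc, fun H hH P hP hdeg h0 hb => ?_⟩
  obtain ⟨j, hj, hk⟩ := h H hH (fun j i => ξ j ^ ((i : ℕ) + 2)) (fun j k => (P j k).coeff 1)
    (fun j k i => (P j k).coeff ((i : ℕ) + 2))
    (fun j hj => Pool.Agent.H267.OZ.poly_ind (r j) (P j) (hP j hj) (hdeg j hj) (h0 j hj))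
    (fun j hj k => hb j hj k 1) (fun j hj k i => hb j hj k _)
  refine ⟨j, hj, fun p => (hk p).trans (le_of_eq ?_)⟩
  refine Finset.sum_congr rfl fun k _ => ?_
  rw [Pool.Agent.H267.OZ.aeval_split (r j) (ξ j) (P j k) (hdeg j hj k) (h0 j hj k)]

/-- a simultaneous measure with common denominators gives one with a denominator for each number -/
theorem toProd (J : Finset ℕ) (ξ : ℕ → ℝ) (E : ℕ) (c₀ : ℝ)
    (hm : ∀ (a : ℕ → ℤ) (q : ℕ), 0 < q → ∃ j ∈ J, c₀ / (q : ℝ) ^ E ≤ |ξ j - (a j : ℝ) / q|) :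
    ∀ a q : ℕ → ℤ, (∀ j ∈ J, q j ≠ 0) →
      ∃ j ∈ J, c₀ / (∏ i ∈ J, |(q i : ℝ)|) ^ E ≤ |ξ j - (a j : ℝ) / (q j : ℝ)| := by
  classical
  intro P N hN
  obtain ⟨Q, hQ⟩ : ∃ Q : ℕ, Q = ∏ i ∈ J, (N i).natAbs := ⟨_, rfl⟩
  have hQ0 : 0 < Q := by
    rw [hQ]
    exact Finset.prod_pos fun i hi => Int.natAbs_pos.2 (hN i hi)
  have hcast : ∀ i, (((N i).natAbs : ℕ) : ℝ) = |(N i : ℝ)| := by
    intro i
    rw [← Int.cast_natCast, Int.natCast_natAbs, Int.cast_abs]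
  have hQr : (Q : ℝ) = ∏ i ∈ J, |(N i : ℝ)| := by
    rw [hQ]
    push_cast
    exact Finset.prod_congr rfl fun i _ => (hcast i)
  obtain ⟨j, hj, hjm⟩ := hm (fun j => P j * (N j).sign * ∏ i ∈ J.erase j, ((N i).natAbs : ℤ)) Q hQ0
  have h2 := hN j hj
  have hNr : (N j : ℝ) ≠ 0 := by exact_mod_cast h2
  have hNa : 0 < |(N j : ℝ)| := abs_pos.2 hNr
  have hQs : (Q : ℝ) = |(N j : ℝ)| * ∏ i ∈ J.erase j, |(N i : ℝ)| := by
    rw [hQr, Finset.mul_prod_erase J (fun i => |(N i : ℝ)|) hj]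
  have hEr0 : 0 < ∏ i ∈ J.erase j, |(N i : ℝ)| := by
    refine Finset.prod_pos fun i hi => abs_pos.2 ?_
    exact_mod_cast hN i (Finset.mem_of_mem_erase hi)
  have hfrac : ((P j * (N j).sign * ∏ i ∈ J.erase j, ((N i).natAbs : ℤ) : ℤ) : ℝ) / Q =
      (P j : ℝ) / N j := by
    rw [hQs]
    have e1 : ((P j * (N j).sign * ∏ i ∈ J.erase j, ((N i).natAbs : ℤ) : ℤ) : ℝ) =
        (P j : ℝ) * ((N j).sign : ℝ) * ∏ i ∈ J.erase j, |(N i : ℝ)| := by
      push_cast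
      congr 1
    rw [e1]
    have e2 : |(N j : ℝ)| = (N j : ℝ) * ((N j).sign : ℝ) := by
      have h7 : ((|N j| : ℤ) : ℝ) = ((N j * (N j).sign : ℤ) : ℝ) := by
        rw [Int.mul_sign_self, Int.natCast_natAbs]
      rw [Int.cast_abs] at h7
      rw [h7]
      push_cast
      ring
    have e3 : ((N j).sign : ℝ) ≠ 0 := by
      have : (N j).sign ≠ 0 := by
        rw [Ne, Int.sign_eq_zero_iff_zero]
        exact h2
      exact_mod_cast this
    rw [e2]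
    field_simp
  rw [hfrac] at hjm
  rw [← hQr]
  exact ⟨j, hj, hjm⟩

end Pool.Agent.H241.OS
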