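import Pool.Agent.H267.OZ.Poly

/-!
# Near relations of several numbers, each with relations and a scale of its own

`ξ_j`, `j ∈ J`, are real numbers for which a simultaneous measure is known: no rational numbers with a common
denominator `q` approximate all of them with an error below `c₀ q ^ (-E)`.
-/

set_option autoImplicit false

namespace Pool.Agent.H241.OS

open Finset

/-- elimination for one number: `r + 1` independent integer vectors `(q; e)` of size at most `X` have a combination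
`(N; 0)` with `N ≠ 0`, and `N ξ` is near an integer if all the `q ξ + ∑ e t` are -/
theorem elim (r : ℕ) (ξ X : ℝ) (hX : 1 ≤ X) (t : Fin r → ℝ) (q : Fin (r + 1) → ℤ)
    (e : Fin (r + 1) → Fin r → ℤ) (hv : LinearIndependent ℤ (fun k => (q k, e k)))
    (hqX : ∀ k, |(q k : ℝ)| ≤ X) (heX : ∀ k i, |(e k i : ℝ)| ≤ X) (B : ℝ) (p : Fin (r + 1) → ℤ)
    (hp : ∀ k, |(q k : ℝ) * ξ + ∑ i, (e k i : ℝ) * t i - p k| ≤ B) :
    ∃ N P : ℤ, N ≠ 0 ∧ |(N : ℝ)| ≤ (((r + 1 : ℕ) : ℝ) * X) ^ (r + 1) ∧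
      |(N : ℝ) * ξ - P| ≤ ((r + 1 : ℕ) : ℝ) * ((((r + 1 : ℕ) : ℝ) * X) ^ r * B) := by
  have hX0 : 0 < X := by linarith
  have hR1 : (1 : ℝ) ≤ ((r + 1 : ℕ) : ℝ) := by push_cast; linarith [Nat.cast_nonneg (α := ℝ) r]
  obtain ⟨l, hl0, hl, hlb⟩ := Pool.Agent.H267.OZ.exists_comb X hX e heX
  obtain ⟨R, hR⟩ : ∃ R : ℝ, R = ((r + 1 : ℕ) : ℝ) := ⟨_, rfl⟩
  rw [← hR] at hR1 hlb ⊢
  have hR0 : 0 < R := by linarith
  obtain ⟨N, hN⟩ : ∃ N : ℤ, N = ∑ k, l k * q k := ⟨_, rfl⟩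
  have hN0 : N ≠ 0 := by
    intro hcon
    apply hl0
    rw [Fintype.linearIndependent_iff] at hv
    funext k
    refine hv l ?_ k
    refine Prod.ext ?_ ?_
    · rw [Prod.fst_sum]
      simp only [Prod.smul_fst, smul_eq_mul, Prod.fst_zero]
      rw [← hN]
      exact hcon
    · rw [Prod.snd_sum]
      funext j
      rw [Finset.sum_apply]
      simp only [Prod.smul_snd, Pi.smul_apply, smul_eq_mul, Prod.snd_zero, Pi.zero_apply]
      exact hl j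
  refine ⟨N, ∑ k, l k * p k, hN0, ?_, ?_⟩
  · rw [hN]
    push_cast
    calc |∑ k, (l k : ℝ) * (q k : ℝ)| ≤ ∑ k, |(l k : ℝ) * (q k : ℝ)| :=
          Finset.abs_sum_le_sum_abs _ _
      _ ≤ ∑ _k : Fin (r + 1), (R * X) ^ r * X := by
          refine Finset.sum_le_sum fun k _ => ?_
          rw [abs_mul]
          have h1 := hqX k
          have h2 := hlb k
          gcongr
      _ = (R * X) ^ (r + 1) := by
          rw [Finset.sum_const, Finset.card_univ, Fintype.card_fin, nsmul_eq_mul, ← hR]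
          ring
  · have hsum : (N : ℝ) * ξ - ((∑ k, l k * p k : ℤ) : ℝ) =
        ∑ k, (l k : ℝ) * ((q k : ℝ) * ξ + ∑ i, (e k i : ℝ) * t i - p k) := by
      have h1 : ∑ k, (l k : ℝ) * ∑ i, (e k i : ℝ) * t i = 0 := by
        simp only [Finset.mul_sum]
        rw [Finset.sum_comm]
        refine Finset.sum_eq_zero fun i _ => ?_
        have h2 : ∑ k, (l k : ℝ) * ((e k i : ℝ) * t i) = (∑ k, (l k : ℝ) * (e k i : ℝ)) * t i := by
          rw [Finset.sum_mul]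
          exact Finset.sum_congr rfl fun k _ => by ring
        rw [h2]
        have h4 : ∑ k, (l k : ℝ) * (e k i : ℝ) = 0 := by exact_mod_cast hl i
        rw [h4, zero_mul]
      have h2 : ∑ k, (l k : ℝ) * ((q k : ℝ) * ξ + ∑ i, (e k i : ℝ) * t i - p k) =
          ∑ k, (l k : ℝ) * (q k : ℝ) * ξ + ∑ k, (l k : ℝ) * ∑ i, (e k i : ℝ) * t i -
            ∑ k, (l k : ℝ) * (p k : ℝ) := by
        rw [← Finset.sum_add_distrib, ← Finset.sum_sub_distrib]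
        exact Finset.sum_congr rfl fun k _ => by ring
      rw [h2, h1, hN, ← Finset.sum_mul]
      push_cast
      ring
    rw [hsum]
    calc |∑ k, (l k : ℝ) * ((q k : ℝ) * ξ + ∑ i, (e k i : ℝ) * t i - p k)|
        ≤ ∑ k, |(l k : ℝ) * ((q k : ℝ) * ξ + ∑ i, (e k i : ℝ) * t i - p k)| :=
          Finset.abs_sum_le_sum_abs _ _
      _ ≤ ∑ _k : Fin (r + 1), (R * X) ^ r * B := by
          refine Finset.sum_le_sum fun k _ => ?_
          rw [abs_mul]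
          have h1 := hp k
          have h2 := hlb k
          gcongr
      _ = R * ((R * X) ^ r * B) := by
          rw [Finset.sum_const, Finset.card_univ, Fintype.card_fin, nsmul_eq_mul, ← hR]

/-- **Near relations at own scales.** -/
theorem own (J : Finset ℕ) (ξ : ℕ → ℝ) (E : ℕ) (hE : 1 ≤ E) (c₀ : ℝ) (hc₀ : 0 < c₀)
    (hm : ∀ (a : ℕ → ℤ) (q : ℕ), 0 < q → ∃ j ∈ J, c₀ / (q : ℝ) ^ E ≤ |ξ j - (a j : ℝ) / q|)
    (r : ℕ → ℕ) : ∃ c : ℝ, 0 < c ∧ ∀ X : ℕ → ℝ, (∀ j ∈ J, 1 ≤ X j) →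
      ∀ (t : (j : ℕ) → Fin (r j) → ℝ) (q : (j : ℕ) → Fin (r j + 1) → ℤ)
        (e : (j : ℕ) → Fin (r j + 1) → Fin (r j) → ℤ),
        (∀ j ∈ J, LinearIndependent ℤ (fun k => (q j k, e j k))) →
        (∀ j ∈ J, ∀ k, |(q j k : ℝ)| ≤ X j) → (∀ j ∈ J, ∀ k i, |(e j k i : ℝ)| ≤ X j) →
        ∃ j ∈ J, ∃ k, ∀ p : ℤ, c * X j / ∏ i ∈ J, X i ^ (E * (r i + 1)) ≤
          |(q j k : ℝ) * ξ j + ∑ i, (e j k i : ℝ) * t j i - p| := by
  classical
  -- the constants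
  obtain ⟨R, hR⟩ : ∃ R : ℕ → ℝ, R = fun j => ((r j + 1 : ℕ) : ℝ) := ⟨_, rfl⟩
  have hR1 : ∀ j, 1 ≤ R j := by
    intro j
    rw [hR]
    push_cast
    linarith [Nat.cast_nonneg (α := ℝ) (r j)]
  obtain ⟨D, hD⟩ : ∃ D : ℝ, D = ∏ i ∈ J, R i ^ (E * (r i + 1)) := ⟨_, rfl⟩
  have hD0 : 0 < D := by
    rw [hD]
    exact Finset.prod_pos fun i _ => pow_pos (by linarith [hR1 i]) _
  refine ⟨c₀ / (2 * D), by positivity, ?_⟩
  intro X hX t q e hv hqX heX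
  by_contra hcon
  push Not at hcon
  obtain ⟨B, hB⟩ : ∃ B : ℕ → ℝ, B = fun j => c₀ / (2 * D) * X j / ∏ i ∈ J, X i ^ (E * (r i + 1)) :=
    ⟨_, rfl⟩
  have hstep : ∀ j : ℕ, ∃ N P : ℤ, j ∈ J → (N ≠ 0 ∧ |(N : ℝ)| ≤ (R j * X j) ^ (r j + 1) ∧
      |(N : ℝ) * ξ j - P| ≤ R j * ((R j * X j) ^ (r j) * B j)) := by
    intro j
    by_cases hj : j ∈ J
    · have h1 := hcon j hj
      choose p hp using h1
      obtain ⟨N, P, h2, h3, h4⟩ := elim (r j) (ξ j) (X j) (hX j hj) (t j) (q j) (e j) (hv j hj)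
        (hqX j hj) (heX j hj) (B j) p (fun k => by rw [hB]; exact (hp k).le)
      refine ⟨N, P, fun _ => ⟨h2, ?_, ?_⟩⟩
      · rw [hR]; exact h3
      · rw [hR]; exact h4
    · exact ⟨0, 0, fun h => absurd h hj⟩
  choose N P hNP using hstep
  obtain ⟨Q, hQ⟩ : ∃ Q : ℕ, Q = ∏ i ∈ J, (N i).natAbs := ⟨_, rfl⟩
  have hQ0 : 0 < Q := by
    rw [hQ]
    exact Finset.prod_pos fun i hi => Int.natAbs_pos.2 (hNP i hi).1
  have hcast : ∀ i, (((N i).natAbs : ℕ) : ℝ) = |(N i : ℝ)| := by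
    intro i
    rw [← Int.cast_natCast, Int.natCast_natAbs, Int.cast_abs]
  have hQr : (Q : ℝ) = ∏ i ∈ J, |(N i : ℝ)| := by
    rw [hQ]
    push_cast
    exact Finset.prod_congr rfl fun i _ => (hcast i)
  -- the numerators
  obtain ⟨j, hj, hjm⟩ := hm (fun j => P j * (N j).sign * ∏ i ∈ J.erase j, ((N i).natAbs : ℤ)) Q hQ0
  obtain ⟨h2, h3, h4⟩ := hNP j hj
  have hNr : (N j : ℝ) ≠ 0 := by exact_mod_cast h2
  have hNa : 0 < |(N j : ℝ)| := abs_pos.2 hNr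
  have hQs : (Q : ℝ) = |(N j : ℝ)| * ∏ i ∈ J.erase j, |(N i : ℝ)| := by
    rw [hQr, Finset.mul_prod_erase J (fun i => |(N i : ℝ)|) hj]
  have hEr0 : 0 < ∏ i ∈ J.erase j, |(N i : ℝ)| := by
    refine Finset.prod_pos fun i hi => abs_pos.2 ?_
    exact_mod_cast (hNP i (Finset.mem_of_mem_erase hi)).1
  have hfrac : ((P j * (N j).sign * ∏ i ∈ J.erase j, ((N i).natAbs : ℤ) : ℤ) : ℝ) / Q =
      (P j : ℝ) / N j := by
    rw [hQs]
    have e1 : ((P j * (N j).sign * ∏ i ∈ J.erase j, ((N i).natAbs : ℤ) : ℤ) : ℝ) =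
        (P j : ℝ) * ((N j).sign : ℝ) * ∏ i ∈ J.erase j, |(N i : ℝ)| := by
      push_cast
      congr 1
    rw [e1]
    have e2 : |(N j : ℝ)| = (N j : ℝ) * ((N j).sign : ℝ) := by
      have h7 : ((|N j| : ℤ) : ℝ) = ((N j * (N j).sign : ℤ) : ℝ) := by
        rw [Int.mul_sign_self, Int.natCast_natAbs]
      rw [Int.cast_abs] at h7
      rw [h7]
      push_cast
      ring
    have e3 : ((N j).sign : ℝ) ≠ 0 := by
      have : (N j).sign ≠ 0 := by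
        rw [Ne, Int.sign_eq_zero_iff_zero]
        exact h2
      exact_mod_cast this
    rw [e2]
    field_simp
  rw [hfrac] at hjm
  have h5 : |ξ j - (P j : ℝ) / N j| = |(N j : ℝ) * ξ j - P j| / |(N j : ℝ)| := by
    rw [← abs_div]
    congr 1
    field_simp
  rw [h5, le_div_iff₀ hNa] at hjm
  have h6 := hjm.trans h4
  -- the comparison
  obtain ⟨U, hU⟩ : ∃ U : ℕ → ℝ, U = fun i => (R i * X i) ^ (r i + 1) := ⟨_, rfl⟩
  have hXpos : ∀ i ∈ J, 0 < X i := fun i hi => by linarith [hX i hi]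
  have hRpos : ∀ i, 0 < R i := fun i => by linarith [hR1 i]
  have hUpos : ∀ i ∈ J, 0 < U i := fun i hi => by
    rw [hU]
    have := hXpos i hi
    have := hRpos i
    positivity
  have hNU : ∀ i ∈ J, |(N i : ℝ)| ≤ U i := fun i hi => by
    rw [hU]
    exact (hNP i hi).2.1
  have hQE : (Q : ℝ) ^ E * U j ≤ |(N j : ℝ)| * ∏ i ∈ J, U i ^ E := by
    rw [hQs, ← Finset.mul_prod_erase J (fun i => U i ^ E) hj, mul_pow, ← Finset.prod_pow]
    have h7 : ∏ i ∈ J.erase j, |(N i : ℝ)| ^ E ≤ ∏ i ∈ J.erase j, U i ^ E := by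
      refine Finset.prod_le_prod (fun i _ => by positivity) fun i hi => ?_
      exact pow_le_pow_left₀ (abs_nonneg _) (hNU i (Finset.mem_of_mem_erase hi)) E
    obtain ⟨E', rfl⟩ : ∃ E', E = E' + 1 := ⟨E - 1, by omega⟩
    have h8 : |(N j : ℝ)| ^ E' ≤ U j ^ E' := pow_le_pow_left₀ (abs_nonneg _) (hNU j hj) E'
    have hUj := hUpos j hj
    have h9 : 0 ≤ ∏ i ∈ J.erase j, U i ^ (E' + 1) :=
      Finset.prod_nonneg fun i hi => (pow_pos (hUpos i (Finset.mem_of_mem_erase hi)) _).le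
    calc |(N j : ℝ)| ^ (E' + 1) * (∏ i ∈ J.erase j, |(N i : ℝ)| ^ (E' + 1)) * U j
        = |(N j : ℝ)| * (|(N j : ℝ)| ^ E' * (∏ i ∈ J.erase j, |(N i : ℝ)| ^ (E' + 1)) * U j) := by ring
      _ ≤ |(N j : ℝ)| * (U j ^ E' * (∏ i ∈ J.erase j, U i ^ (E' + 1)) * U j) := by gcongr
      _ = |(N j : ℝ)| * (U j ^ (E' + 1) * ∏ i ∈ J.erase j, U i ^ (E' + 1)) := by ring
  have hQp : 0 < (Q : ℝ) ^ E := by
    have : (0 : ℝ) < Q := by exact_mod_cast hQ0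
    positivity
  have hPU : ∏ i ∈ J, U i ^ E = D * ∏ i ∈ J, X i ^ (E * (r i + 1)) := by
    rw [hD, ← Finset.prod_mul_distrib]
    refine Finset.prod_congr rfl fun i _ => ?_
    rw [hU]
    simp only
    rw [← pow_mul, mul_comm (r i + 1) E, mul_pow]
  have hPX : 0 < ∏ i ∈ J, X i ^ (E * (r i + 1)) :=
    Finset.prod_pos fun i hi => pow_pos (hXpos i hi) _
  have hUP : 0 < ∏ i ∈ J, U i ^ E := Finset.prod_pos fun i hi => pow_pos (hUpos i hi) _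
  have h10 : c₀ * U j / ∏ i ∈ J, U i ^ E ≤ c₀ / (Q : ℝ) ^ E * |(N j : ℝ)| := by
    rw [div_mul_eq_mul_div, div_le_div_iff₀ hUP hQp]
    calc c₀ * U j * (Q : ℝ) ^ E = c₀ * ((Q : ℝ) ^ E * U j) := by ring
      _ ≤ c₀ * (|(N j : ℝ)| * ∏ i ∈ J, U i ^ E) := by gcongr
      _ = c₀ * |(N j : ℝ)| * ∏ i ∈ J, U i ^ E := by ring
  have h11 := h10.trans h6
  rw [hPU] at h11
  have hXj := hXpos j hj
  have hRj := hRpos j
  have h12 : R j * ((R j * X j) ^ (r j) * B j) =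
      c₀ * U j / (2 * (D * ∏ i ∈ J, X i ^ (E * (r i + 1)))) := by
    rw [hB, hU]
    simp only
    field_simp
    ring
  rw [h12] at h11
  have h13 : 0 < c₀ * U j / (D * ∏ i ∈ J, X i ^ (E * (r i + 1))) := by
    have := hUpos j hj
    positivity
  have h14 : c₀ * U j / (2 * (D * ∏ i ∈ J, X i ^ (E * (r i + 1)))) =
      (c₀ * U j / (D * ∏ i ∈ J, X i ^ (E * (r i + 1)))) / 2 := by
    field_simp
  rw [h14] at h11
  linarith

/-- **Near relations between powers, at own scales.** -/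
theorem ownPoly (J : Finset ℕ) (ξ : ℕ → ℝ) (E : ℕ) (hE : 1 ≤ E) (c₀ : ℝ) (hc₀ : 0 < c₀)
    (hm : ∀ (a : ℕ → ℤ) (q : ℕ), 0 < q → ∃ j ∈ J, c₀ / (q : ℝ) ^ E ≤ |ξ j - (a j : ℝ) / q|)
    (r : ℕ → ℕ) : ∃ c : ℝ, 0 < c ∧ ∀ X : ℕ → ℝ, (∀ j ∈ J, 1 ≤ X j) →
      ∀ P : (j : ℕ) → Fin (r j + 1) → Polynomial ℤ, (∀ j ∈ J, LinearIndependent ℤ (P j)) →
        (∀ j ∈ J, ∀ k, (P j k).natDegree ≤ r j + 1) → (∀ j ∈ J, ∀ k, (P j k).coeff 0 = 0) →
        (∀ j ∈ J, ∀ k i, |((P j k).coeff i : ℝ)| ≤ X j) →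
        ∃ j ∈ J, ∃ k, ∀ p : ℤ, c * X j / ∏ i ∈ J, X i ^ (E * (r i + 1)) ≤
          |Polynomial.aeval (ξ j) (P j k) - (p : ℝ)| := by
  obtain ⟨c, hc, h⟩ := own J ξ E hE c₀ hc₀ hm r
  refine ⟨c, hc, fun X hX P hP hdeg h0 hb => ?_⟩
  obtain ⟨j, hj, k, hk⟩ := h X hX (fun j i => ξ j ^ ((i : ℕ) + 2)) (fun j k => (P j k).coeff 1)
    (fun j k i => (P j k).coeff ((i : ℕ) + 2))
    (fun j hj => Pool.Agent.H267.OZ.poly_ind (r j) (P j) (hP j hj) (hdeg j hj) (h0 j hj))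
    (fun j hj k => hb j hj k 1) (fun j hj k i => hb j hj k _)
  refine ⟨j, hj, k, fun p => (hk p).trans (le_of_eq ?_)⟩
  rw [Pool.Agent.H267.OZ.aeval_split (r j) (ξ j) (P j k) (hdeg j hj k) (h0 j hj k)]

/-- the rational ones among the numbers can be left out of a simultaneous measure -/
theorem restrict (J S : Finset ℕ) (ξ : ℕ → ℝ) (E : ℕ) (c₀ : ℝ) (hc₀ : 0 < c₀)
    (hm : ∀ (a : ℕ → ℤ) (q : ℕ), 0 < q → ∃ j ∈ J, c₀ / (q : ℝ) ^ E ≤ |ξ j - (a j : ℝ) / q|)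
    (hS : ∀ j ∈ S, ¬ Irrational (ξ j)) :
    ∃ c₁ : ℝ, 0 < c₁ ∧ ∀ (a : ℕ → ℤ) (q : ℕ), 0 < q →
      ∃ j ∈ J \ S, c₁ / (q : ℝ) ^ E ≤ |ξ j - (a j : ℝ) / q| := by
  classical
  have hx : ∀ j : ℕ, ∃ x : ℚ, j ∈ S → (x : ℝ) = ξ j := by
    intro j
    by_cases hj : j ∈ S
    · have h1 := hS j hj
      rw [Irrational, not_not] at h1
      obtain ⟨x, hx⟩ := h1
      exact ⟨x, fun _ => hx⟩
    · exact ⟨0, fun h => absurd h hj⟩
  choose x hx using hx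
  obtain ⟨b, hb⟩ : ∃ b : ℕ, b = ∏ i ∈ S, (x i).den := ⟨_, rfl⟩
  have hb0 : 0 < b := by
    rw [hb]
    exact Finset.prod_pos fun i _ => (x i).pos
  have hbr : (0 : ℝ) < b := by exact_mod_cast hb0
  refine ⟨c₀ / (b : ℝ) ^ E, by positivity, fun a q hq => ?_⟩
  have hqr : (0 : ℝ) < q := by exact_mod_cast hq
  obtain ⟨j, hj, h1⟩ := hm (fun j => if j ∈ S then
    (q : ℤ) * ((x j).num * ∏ i ∈ S.erase j, ((x i).den : ℤ)) else a j * b) (q * b)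
    (Nat.mul_pos hq hb0)
  have hjS : j ∉ S := by
    intro hjS
    rw [if_pos hjS] at h1
    have h2 : (b : ℝ) = ((x j).den : ℝ) * ∏ i ∈ S.erase j, ((x i).den : ℝ) := by
      rw [hb]
      push_cast
      rw [Finset.mul_prod_erase S (fun i => ((x i).den : ℝ)) hjS]
    have h3 : (0 : ℝ) < ∏ i ∈ S.erase j, ((x i).den : ℝ) :=
      Finset.prod_pos fun i _ => by exact_mod_cast (x i).pos
    have h4 : (0 : ℝ) < ((x j).den : ℝ) := by exact_mod_cast (x j).pos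
    have h5 : (((q : ℤ) * ((x j).num * ∏ i ∈ S.erase j, ((x i).den : ℤ)) : ℤ) : ℝ) /
        ((q * b : ℕ) : ℝ) = ξ j := by
      rw [← hx j hjS, Rat.cast_def]
      push_cast
      rw [h2]
      field_simp
    rw [h5, sub_self, abs_zero] at h1
    have h6 : 0 < c₀ / (((q * b : ℕ) : ℝ)) ^ E := by
      have : (0 : ℝ) < ((q * b : ℕ) : ℝ) := by exact_mod_cast Nat.mul_pos hq hb0
      positivity
    linarith
  refine ⟨j, Finset.mem_sdiff.2 ⟨hj, hjS⟩, ?_⟩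
  rw [if_neg hjS] at h1
  have h2 : ((a j * b : ℤ) : ℝ) / ((q * b : ℕ) : ℝ) = (a j : ℝ) / q := by
    push_cast
    field_simp
  rw [h2] at h1
  refine le_trans (le_of_eq ?_) h1
  push_cast
  rw [mul_pow]
  field_simp

end Pool.Agent.H241.OS
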