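import Pool.Agent.H241.OS.Own

/-!
# Near relations at own scales, from a measure with a denominator for each number
-/

set_option autoImplicit false

namespace Pool.Agent.H241.OS

open Finset

/-- **Near relations at own scales, from a measure with a denominator for each number.** -/
theorem ownProd (J : Finset ℕ) (ξ : ℕ → ℝ) (E : ℕ) (hE : 1 ≤ E) (c₀ : ℝ) (hc₀ : 0 < c₀)
    (hm : ∀ a q : ℕ → ℤ, (∀ j ∈ J, q j ≠ 0) →
      ∃ j ∈ J, c₀ / (∏ i ∈ J, |(q i : ℝ)|) ^ E ≤ |ξ j - (a j : ℝ) / (q j : ℝ)|)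
    (r : ℕ → ℕ) : ∃ c : ℝ, 0 < c ∧ ∀ X : ℕ → ℝ, (∀ j ∈ J, 1 ≤ X j) →
      ∀ (t : (j : ℕ) → Fin (r j) → ℝ) (q : (j : ℕ) → Fin (r j + 1) → ℤ)
        (e : (j : ℕ) → Fin (r j + 1) → Fin (r j) → ℤ),
        (∀ j ∈ J, LinearIndependent ℤ (fun k => (q j k, e j k))) →
        (∀ j ∈ J, ∀ k, |(q j k : ℝ)| ≤ X j) → (∀ j ∈ J, ∀ k i, |(e j k i : ℝ)| ≤ X j) →
        ∃ j ∈ J, ∃ k, ∀ p : ℤ, c * X j / ∏ i ∈ J, X i ^ (E * (r i + 1)) ≤
          |(q j k : ℝ) * ξ j + ∑ i, (e j k i : ℝ) * t j i - p| := by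
  classical
  -- the constants
  obtain ⟨R, hR⟩ : ∃ R : ℕ → ℝ, R = fun j => ((r j + 1 : ℕ) : ℝ) := ⟨_, rfl⟩
  have hR1 : ∀ j, 1 ≤ R j := by
    intro j
    rw [hR]
    push_cast
    linarith [Nat.cast_nonneg (α := ℝ) (r j)]
  obtain ⟨D, hD⟩ : ∃ D : ℝ, D = ∏ i ∈ J, R i ^ (E * (r i + 1)) := ⟨_, rfl⟩
  have hD0 : 0 < D := by
    rw [hD]
    exact Finset.prod_pos fun i _ => pow_pos (by linarith [hR1 i]) _
  refine ⟨c₀ / (2 * D), by positivity, ?_⟩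
  intro X hX t q e hv hqX heX
  by_contra hcon
  push Not at hcon
  obtain ⟨B, hB⟩ : ∃ B : ℕ → ℝ, B = fun j => c₀ / (2 * D) * X j / ∏ i ∈ J, X i ^ (E * (r i + 1)) :=
    ⟨_, rfl⟩
  have hstep : ∀ j : ℕ, ∃ N P : ℤ, j ∈ J → (N ≠ 0 ∧ |(N : ℝ)| ≤ (R j * X j) ^ (r j + 1) ∧
      |(N : ℝ) * ξ j - P| ≤ R j * ((R j * X j) ^ (r j) * B j)) := by
    intro j
    by_cases hj : j ∈ J
    · have h1 := hcon j hj
      choose p hp using h1
      obtain ⟨N, P, h2, h3, h4⟩ := elim (r j) (ξ j) (X j) (hX j hj) (t j) (q j) (e j) (hv j hj)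
        (hqX j hj) (heX j hj) (B j) p (fun k => by rw [hB]; exact (hp k).le)
      refine ⟨N, P, fun _ => ⟨h2, ?_, ?_⟩⟩
      · rw [hR]; exact h3
      · rw [hR]; exact h4
    · exact ⟨0, 0, fun h => absurd h hj⟩
  choose N P hNP using hstep
  obtain ⟨Q, hQ⟩ : ∃ Q : ℕ, Q = ∏ i ∈ J, (N i).natAbs := ⟨_, rfl⟩
  have hQ0 : 0 < Q := by
    rw [hQ]
    exact Finset.prod_pos fun i hi => Int.natAbs_pos.2 (hNP i hi).1
  have hcast : ∀ i, (((N i).natAbs : ℕ) : ℝ) = |(N i : ℝ)| := by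
    intro i
    rw [← Int.cast_natCast, Int.natCast_natAbs, Int.cast_abs]
  have hQr : (Q : ℝ) = ∏ i ∈ J, |(N i : ℝ)| := by
    rw [hQ]
    push_cast
    exact Finset.prod_congr rfl fun i _ => (hcast i)
  -- the measure
  obtain ⟨j, hj, hjm⟩ := hm P N (fun i hi => (hNP i hi).1)
  obtain ⟨h2, h3, h4⟩ := hNP j hj
  have hNr : (N j : ℝ) ≠ 0 := by exact_mod_cast h2
  have hNa : 0 < |(N j : ℝ)| := abs_pos.2 hNr
  have hQs : (Q : ℝ) = |(N j : ℝ)| * ∏ i ∈ J.erase j, |(N i : ℝ)| := by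
    rw [hQr, Finset.mul_prod_erase J (fun i => |(N i : ℝ)|) hj]
  rw [← hQr] at hjm
  have h5 : |ξ j - (P j : ℝ) / N j| = |(N j : ℝ) * ξ j - P j| / |(N j : ℝ)| := by
    rw [← abs_div]
    congr 1
    field_simp
  rw [h5, le_div_iff₀ hNa] at hjm
  have h6 := hjm.trans h4
  -- the comparison
  obtain ⟨U, hU⟩ : ∃ U : ℕ → ℝ, U = fun i => (R i * X i) ^ (r i + 1) := ⟨_, rfl⟩
  have hXpos : ∀ i ∈ J, 0 < X i := fun i hi => by linarith [hX i hi]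
  have hRpos : ∀ i, 0 < R i := fun i => by linarith [hR1 i]
  have hUpos : ∀ i ∈ J, 0 < U i := fun i hi => by
    rw [hU]
    have := hXpos i hi
    have := hRpos i
    positivity
  have hNU : ∀ i ∈ J, |(N i : ℝ)| ≤ U i := fun i hi => by
    rw [hU]
    exact (hNP i hi).2.1
  have hQE : (Q : ℝ) ^ E * U j ≤ |(N j : ℝ)| * ∏ i ∈ J, U i ^ E := by
    rw [hQs, ← Finset.mul_prod_erase J (fun i => U i ^ E) hj, mul_pow, ← Finset.prod_pow]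
    have h7 : ∏ i ∈ J.erase j, |(N i : ℝ)| ^ E ≤ ∏ i ∈ J.erase j, U i ^ E := by
      refine Finset.prod_le_prod (fun i _ => by positivity) fun i hi => ?_
      exact pow_le_pow_left₀ (abs_nonneg _) (hNU i (Finset.mem_of_mem_erase hi)) E
    obtain ⟨E', rfl⟩ : ∃ E', E = E' + 1 := ⟨E - 1, by omega⟩
    have h8 : |(N j : ℝ)| ^ E' ≤ U j ^ E' := pow_le_pow_left₀ (abs_nonneg _) (hNU j hj) E'
    have hUj := hUpos j hj
    have h9 : 0 ≤ ∏ i ∈ J.erase j, U i ^ (E' + 1) :=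
      Finset.prod_nonneg fun i hi => (pow_pos (hUpos i (Finset.mem_of_mem_erase hi)) _).le
    calc |(N j : ℝ)| ^ (E' + 1) * (∏ i ∈ J.erase j, |(N i : ℝ)| ^ (E' + 1)) * U j
        = |(N j : ℝ)| * (|(N j : ℝ)| ^ E' * (∏ i ∈ J.erase j, |(N i : ℝ)| ^ (E' + 1)) * U j) := by ring
      _ ≤ |(N j : ℝ)| * (U j ^ E' * (∏ i ∈ J.erase j, U i ^ (E' + 1)) * U j) := by gcongr
      _ = |(N j : ℝ)| * (U j ^ (E' + 1) * ∏ i ∈ J.erase j, U i ^ (E' + 1)) := by ring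
  have hQp : 0 < (Q : ℝ) ^ E := by
    have : (0 : ℝ) < Q := by exact_mod_cast hQ0
    positivity
  have hPU : ∏ i ∈ J, U i ^ E = D * ∏ i ∈ J, X i ^ (E * (r i + 1)) := by
    rw [hD, ← Finset.prod_mul_distrib]
    refine Finset.prod_congr rfl fun i _ => ?_
    rw [hU]
    simp only
    rw [← pow_mul, mul_comm (r i + 1) E, mul_pow]
  have hPX : 0 < ∏ i ∈ J, X i ^ (E * (r i + 1)) :=
    Finset.prod_pos fun i hi => pow_pos (hXpos i hi) _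
  have hUP : 0 < ∏ i ∈ J, U i ^ E := Finset.prod_pos fun i hi => pow_pos (hUpos i hi) _
  have h10 : c₀ * U j / ∏ i ∈ J, U i ^ E ≤ c₀ / (Q : ℝ) ^ E * |(N j : ℝ)| := by
    rw [div_mul_eq_mul_div, div_le_div_iff₀ hUP hQp]
    calc c₀ * U j * (Q : ℝ) ^ E = c₀ * ((Q : ℝ) ^ E * U j) := by ring
      _ ≤ c₀ * (|(N j : ℝ)| * ∏ i ∈ J, U i ^ E) := by gcongr
      _ = c₀ * |(N j : ℝ)| * ∏ i ∈ J, U i ^ E := by ring
  have h11 := h10.trans h6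
  rw [hPU] at h11
  have hXj := hXpos j hj
  have hRj := hRpos j
  have h12 : R j * ((R j * X j) ^ (r j) * B j) =
      c₀ * U j / (2 * (D * ∏ i ∈ J, X i ^ (E * (r i + 1)))) := by
    rw [hB, hU]
    simp only
    field_simp
    ring
  rw [h12] at h11
  have h13 : 0 < c₀ * U j / (D * ∏ i ∈ J, X i ^ (E * (r i + 1))) := by
    have := hUpos j hj
    positivity
  have h14 : c₀ * U j / (2 * (D * ∏ i ∈ J, X i ^ (E * (r i + 1)))) =
      (c₀ * U j / (D * ∏ i ∈ J, X i ^ (E * (r i + 1)))) / 2 := by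
    field_simp
  rw [h14] at h11
  linarith

/-- **Near relations between powers, at own scales, from a measure with a denominator for each number.** -/
theorem ownProdPoly (J : Finset ℕ) (ξ : ℕ → ℝ) (E : ℕ) (hE : 1 ≤ E) (c₀ : ℝ) (hc₀ : 0 < c₀)
    (hm : ∀ a q : ℕ → ℤ, (∀ j ∈ J, q j ≠ 0) →
      ∃ j ∈ J, c₀ / (∏ i ∈ J, |(q i : ℝ)|) ^ E ≤ |ξ j - (a j : ℝ) / (q j : ℝ)|)
    (r : ℕ → ℕ) : ∃ c : ℝ, 0 < c ∧ ∀ X : ℕ → ℝ, (∀ j ∈ J, 1 ≤ X j) →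
      ∀ P : (j : ℕ) → Fin (r j + 1) → Polynomial ℤ, (∀ j ∈ J, LinearIndependent ℤ (P j)) →
        (∀ j ∈ J, ∀ k, (P j k).natDegree ≤ r j + 1) → (∀ j ∈ J, ∀ k, (P j k).coeff 0 = 0) →
        (∀ j ∈ J, ∀ k i, |((P j k).coeff i : ℝ)| ≤ X j) →
        ∃ j ∈ J, ∃ k, ∀ p : ℤ, c * X j / ∏ i ∈ J, X i ^ (E * (r i + 1)) ≤
          |Polynomial.aeval (ξ j) (P j k) - (p : ℝ)| := by
  obtain ⟨c, hc, h⟩ := ownProd J ξ E hE c₀ hc₀ hm r
  refine ⟨c, hc, fun X hX P hP hdeg h0 hb => ?_⟩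
  obtain ⟨j, hj, k, hk⟩ := h X hX (fun j i => ξ j ^ ((i : ℕ) + 2)) (fun j k => (P j k).coeff 1)
    (fun j k i => (P j k).coeff ((i : ℕ) + 2))
    (fun j hj => Pool.Agent.H267.OZ.poly_ind (r j) (P j) (hP j hj) (hdeg j hj) (h0 j hj))
    (fun j hj k => hb j hj k 1) (fun j hj k i => hb j hj k _)
  refine ⟨j, hj, k, fun p => (hk p).trans (le_of_eq ?_)⟩
  rw [Pool.Agent.H267.OZ.aeval_split (r j) (ξ j) (P j k) (hdeg j hj k) (h0 j hj k)]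

/-- the rational ones among the numbers can be left out of a measure with a denominator for each number -/
theorem restrictProd (J S : Finset ℕ) (ξ : ℕ → ℝ) (E : ℕ) (c₀ : ℝ) (hc₀ : 0 < c₀)
    (hm : ∀ a q : ℕ → ℤ, (∀ j ∈ J, q j ≠ 0) →
      ∃ j ∈ J, c₀ / (∏ i ∈ J, |(q i : ℝ)|) ^ E ≤ |ξ j - (a j : ℝ) / (q j : ℝ)|)
    (hS : ∀ j ∈ S, ¬ Irrational (ξ j)) :
    ∃ c₁ : ℝ, 0 < c₁ ∧ ∀ a q : ℕ → ℤ, (∀ j ∈ J \ S, q j ≠ 0) →
      ∃ j ∈ J \ S, c₁ / (∏ i ∈ J \ S, |(q i : ℝ)|) ^ E ≤ |ξ j - (a j : ℝ) / (q j : ℝ)| := by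
  classical
  have hx : ∀ j : ℕ, ∃ x : ℚ, j ∈ S → (x : ℝ) = ξ j := by
    intro j
    by_cases hj : j ∈ S
    · have h1 := hS j hj
      rw [Irrational, not_not] at h1
      obtain ⟨x, hx⟩ := h1
      exact ⟨x, fun _ => hx⟩
    · exact ⟨0, fun h => absurd h hj⟩
  choose x hx using hx
  obtain ⟨b, hb⟩ : ∃ b : ℝ, b = ∏ i ∈ J ∩ S, ((x i).den : ℝ) := ⟨_, rfl⟩
  have hb0 : 0 < b := by
    rw [hb]
    exact Finset.prod_pos fun i _ => by exact_mod_cast (x i).pos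
  refine ⟨c₀ / b ^ E, by positivity, fun a q hq => ?_⟩
  obtain ⟨j, hj, h1⟩ := hm (fun j => if j ∈ S then (x j).num else a j)
    (fun j => if j ∈ S then ((x j).den : ℤ) else q j) (by
      intro j hj
      by_cases hjS : j ∈ S
      · simp only [if_pos hjS]
        exact_mod_cast (x j).den_ne_zero
      · simp only [if_neg hjS]
        exact hq j (Finset.mem_sdiff.2 ⟨hj, hjS⟩))
  have hprod : ∏ i ∈ J, |(((if i ∈ S then ((x i).den : ℤ) else q i) : ℤ) : ℝ)| =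
      b * ∏ i ∈ J \ S, |(q i : ℝ)| := by
    rw [← Finset.prod_inter_mul_prod_sdiff J S, hb]
    congr 1
    · refine Finset.prod_congr rfl fun i hi => ?_
      rw [if_pos (Finset.mem_inter.1 hi).2]
      push_cast
      exact abs_of_nonneg (Nat.cast_nonneg _)
    · refine Finset.prod_congr rfl fun i hi => ?_
      rw [if_neg (Finset.mem_sdiff.1 hi).2]
  rw [hprod] at h1
  have hqp : 0 < ∏ i ∈ J \ S, |(q i : ℝ)| :=
    Finset.prod_pos fun i hi => abs_pos.2 (by exact_mod_cast hq i hi)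
  have hjS : j ∉ S := by
    intro hjS
    simp only [if_pos hjS] at h1
    have h5 : (((x j).num : ℤ) : ℝ) / ((((x j).den : ℤ) : ℤ) : ℝ) = ξ j := by
      rw [← hx j hjS, Rat.cast_def]
      push_cast
      rfl
    rw [h5, sub_self, abs_zero] at h1
    have h6 : 0 < c₀ / (b * ∏ i ∈ J \ S, |(q i : ℝ)|) ^ E := by positivity
    linarith
  refine ⟨j, Finset.mem_sdiff.2 ⟨hj, hjS⟩, ?_⟩
  simp only [if_neg hjS] at h1
  refine le_trans (le_of_eq ?_) h1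
  rw [mul_pow, div_div]

end Pool.Agent.H241.OS
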